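import Mathlib

namespace Pool.Agent.Results.MP_db21b4_co.Five

open SimpleGraph Finset

/-- The bowtie with centre `0` and triangles `0 1 2`, `0 3 4`. -/
def B : SimpleGraph (Fin 5) :=
  fromRel fun a b => (a = 0 ∧ b ≠ 0) ∨ (a = 1 ∧ b = 2) ∨ (a = 3 ∧ b = 4)

/-- `O` is an orientation of `G`. -/
def IsOri {V : Type} (G : SimpleGraph V) (O : V → V → Prop) : Prop :=
  (∀ u v, G.Adj u v ↔ O u v ∨ O v u) ∧ ∀ u v, O u v → ¬ O v u

def Free {V : Type} (H : Fin 5 → Fin 5 → Prop) (O : V → V → Prop) : Prop :=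
  ¬ ∃ f : Fin 5 ↪ V, ∀ a b, H a b → O (f a) (f b)

noncomputable def D (n : ℕ) (H : Fin 5 → Fin 5 → Prop) : ℕ :=
  ⨆ G : SimpleGraph (Fin n), {O | IsOri G O ∧ Free H O}.ncard

lemma fr {H O : Fin 5 → Fin 5 → Prop} (h : IsOri B H) (h3 : {v | H v 0}.ncard = 3)
    (o : IsOri ⊤ O) (n : ∀ w, {u | O u w}.ncard ≠ 3) : Free H O := by
  rintro ⟨f, hf⟩
  refine n (f 0) ?_
  rw [← h3, ← Set.ncard_image_of_injective {v | H v 0} f.injective]
  refine congrArg _ (Set.Subset.antisymm (fun w e => ?_) (by rintro _ ⟨v, e, rfl⟩; exact hf _ _ e))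
  obtain ⟨v, rfl⟩ := Finite.surjective_of_injective f.injective w
  have : v ≠ 0 := fun k => o.2 _ _ e (k ▸ k ▸ e)
  exact ⟨v, ((h.1 v 0).1 (by simp [B, this])).resolve_right fun k => o.2 _ _ e (hf _ _ k), rfl⟩

def t (x : ℕ) (u v : Fin 5) : Bool :=
  if u < v then x.testBit (v * (v - 1) / 2 + u) else v < u && !x.testBit (u * (u - 1) / 2 + v)

def M (x : ℕ) (u v : Fin 5) : Bool :=
  if u < v then x.testBit (v * (v - 1) / 2 + u) else v < u && x.testBit (u * (u - 1) / 2 + v)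

lemma ex : extremalNumber 5 B ≤ 7 := by
  refine (extremalNumber_le_iff (V := Fin 5) B 7).2 fun G _ h => ?_
  obtain ⟨x, hx⟩ : ∃ x : Fin 1024, ∀ u v, G.Adj u v ↔ M x u v := by
    have : ∀ a b c d e f g h i j : Bool, ∃ x : Fin 1024, M x 0 1 = a ∧ M x 0 2 = b ∧ M x 0 3 = c ∧
        M x 0 4 = d ∧ M x 1 2 = e ∧ M x 1 3 = f ∧ M x 1 4 = g ∧ M x 2 3 = h ∧ M x 2 4 = i ∧
        M x 3 4 = j := fun a b c d e f g h i j =>
      ⟨.ofNat _ (a.toNat + 2 * b.toNat + 8 * c.toNat + 64 * d.toNat + 4 * e.toNat + 16 * f.toNat +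
        128 * g.toNat + 32 * h.toNat + 256 * i.toNat + 512 * j.toNat), by
        revert a b c d e f g h i j; decide +kernel⟩
    obtain ⟨x, hx⟩ := this (G.Adj 0 1) (G.Adj 0 2) (G.Adj 0 3) (G.Adj 0 4) (G.Adj 1 2) (G.Adj 1 3)
      (G.Adj 1 4) (G.Adj 2 3) (G.Adj 2 4) (G.Adj 3 4)
    have s : ∀ u v, u < v → (G.Adj u v ↔ M x u v) := fun u v l => by
      fin_cases u <;> fin_cases v <;> simp at l <;> simp [hx]
    refine ⟨x, fun u v => ?_⟩
    rcases lt_trichotomy u v with l | rfl | l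
    · exact s u v l
    · simp [M]
    · rw [G.adj_comm, s v u l]; simp [M, l, l.not_gt]
  have k : ∀ x : Fin 1024, ∑ u, ∑ v, (M x u v).toNat ≤ 14 ∨ ∃ c a b, M x c a ∧ M x c b ∧ M x a b ∧
      ∃ y z, M x c y ∧ M x c z ∧ M x y z ∧ [c, a, b, y, z].Nodup := by decide +kernel
  obtain k | ⟨c, a, b, h1, h2, h3, y, z, h4, h5, h6, n⟩ := k x
  · have := G.sum_degrees_eq_twice_card_edges
    simp only [← card_neighborFinset_eq_degree, neighborFinset_eq_filter, card_filter, hx] at this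
    simp only [Bool.toNat, Bool.cond_eq_ite] at k
    omega
  · rw [← hx] at h1 h2 h3 h4 h5 h6
    refine (h ⟨⟨⟨![c, a, b, y, z], fun {u v} e => ?_⟩, List.nodup_ofFn.1 (by simpa using n)⟩⟩).elim
    fin_cases u <;> fin_cases v <;> simp [B] at e <;>
      first | assumption | exact G.adj_symm ‹_›

lemma low (H : Fin 5 → Fin 5 → Prop) (h : IsOri B H)
    (h3 : {v | H v 0}.ncard = 3 ∨ {v | H 0 v}.ncard = 3) (e : ℕ) (he : e ≤ 7) : 2 ^ e < D 5 H := by
  refine lt_of_lt_of_le ?_ (le_ciSup (Finite.bddAbove_range _) ⊤)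
  obtain ⟨S, c, hS⟩ : ∃ S : Finset (Fin 1024), 2 ^ 7 < S.card ∧ ∀ x ∈ S, ∀ w,
      (univ.filter (t x.val · w)).card ≠ 3 := ⟨univ.filter fun x => ∀ w,
        (univ.filter (t x.val · w)).card ≠ 3, by decide +kernel, fun _ e => (mem_filter.1 e).2⟩
  have o : ∀ x : Fin 1024, IsOri ⊤ fun u v => t x u v := by
    simp only [IsOri, top_adj]; decide +kernel
  have n : ∀ x ∈ S, ∀ w, {u | t x u w}.ncard ≠ 3 := fun x e w => by
    simpa [Set.ncard_eq_toFinset_card'] using hS x e w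
  have i : ∀ x y : Fin 1024, (∀ u v, t x u v ↔ t y u v) → x = y := fun x y e =>
    Fin.ext (Nat.eq_of_testBit_eq fun i => by
      by_cases l : i < 10
      · obtain ⟨u, v, k, rfl⟩ : ∃ u v : Fin 5, u < v ∧ i = v * (v - 1) / 2 + u := by
          revert i; decide
        simpa [t, k] using e u v
      · have := Nat.pow_le_pow_right two_pos (not_lt.1 l)
        rw [Nat.testBit_lt_two_pow (x.2.trans_le this), Nat.testBit_lt_two_pow (y.2.trans_le this)])
  refine (Nat.pow_le_pow_right two_pos he).trans_lt (c.trans_le ?_)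
  rw [← Set.ncard_coe_finset]
  obtain h3 | h3 := h3
  · exact Set.ncard_le_ncard_of_injOn (fun x u v => t x u v) (fun x e => ⟨o x, fr h h3 (o x) (n x e)⟩)
      fun x _ y _ e => i x y fun u v => iff_of_eq (congrFun₂ e u v)
  · exact Set.ncard_le_ncard_of_injOn (fun x u v => t x v u) (fun x e =>
      ⟨⟨fun u v => ((o x).1 u v).trans or_comm, fun u v => (o x).2 v u⟩, fun ⟨f, k⟩ =>
        fr (H := fun u v => H v u) ⟨fun u v => (h.1 u v).trans or_comm, fun u v => h.2 v u⟩ h3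
          (o x) (n x e) ⟨f, fun a b => k b a⟩⟩)
      fun x _ y _ e => i x y fun u v => iff_of_eq (congrFun₂ e v u)

theorem result (H : Fin 5 → Fin 5 → Prop) (h : IsOri B H)
    (h3 : {v | H v 0}.ncard = 3 ∨ {v | H 0 v}.ncard = 3) : 2 ^ extremalNumber 5 B < D 5 H :=
  low H h h3 _ ex

end Pool.Agent.Results.MP_db21b4_co.Five
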